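import Pool.Agent.H51.MFM.S

/-!
# MFM: the normal form (NFJ)
-/

set_option autoImplicit false

open MvPolynomial

namespace Pool.MFM

open Pool.MFQ

variable {σ τ : Type}

theorem pd_iB (i : τ) (c : MvPolynomial σ ℂ) : pderiv (Sum.inr i) (iB σ τ c) = 0 := by
  classical
  unfold iB
  apply pderiv_eq_zero_of_notMem_vars
  intro h
  have h1 := vars_rename (Sum.inl : σ → σ ⊕ τ) c h
  simp at h1

theorem iB_inj : Function.Injective (iB σ τ) := rename_injective _ Sum.inl_injective

theorem pd_comm {κ : Type} (i j : κ) (F : MvPolynomial κ ℂ) :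
    pderiv i (pderiv j F) = pderiv j (pderiv i F) := by
  classical
  ext m
  rw [coeff_pderiv, coeff_pderiv, coeff_pderiv, coeff_pderiv]
  by_cases h : i = j
  · subst h; rfl
  · rw [add_right_comm]
    simp only [Finsupp.add_apply, Finsupp.single_apply, if_neg h, if_neg (Ne.symm h), add_zero]
    ring

/-- A polynomial whose `τ`-derivatives vanish is in `S(V)`. -/
theorem range_iB (F : MvPolynomial (σ ⊕ τ) ℂ) (h : ∀ i : τ, pderiv (Sum.inr i) F = 0) :
    ∃ c, F = iB σ τ c := by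
  classical
  have h1 : (↑F.vars : Set (σ ⊕ τ)) ⊆ Set.range (Sum.inl : σ → σ ⊕ τ) := by
    intro x hx
    rcases x with x | i
    · exact ⟨x, rfl⟩
    · exfalso
      rw [Finset.mem_coe, mem_vars_iff_mem_support] at hx
      obtain ⟨m, hm, hmi⟩ := hx
      rw [Finsupp.mem_support_iff] at hmi
      have h2 := coeff_pderiv (i := Sum.inr i) F (m - Finsupp.single (Sum.inr i) 1)
      rw [h i, coeff_zero] at h2
      have h3 : m - Finsupp.single (Sum.inr i) 1 + Finsupp.single (Sum.inr i) 1 = m := by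
        apply tsub_add_cancel_of_le
        rw [Finsupp.single_le_iff]
        omega
      rw [h3] at h2
      rcases mul_eq_zero.1 h2.symm with h4 | h4
      · exact (mem_support_iff.1 hm) h4
      · have : ((((m - Finsupp.single (Sum.inr i) 1 : (σ ⊕ τ) →₀ ℕ) (Sum.inr i) + 1 : ℕ)) : ℂ) = 0 := by
          push_cast
          exact h4
        exact absurd (Nat.cast_eq_zero.1 this) (Nat.succ_ne_zero _)
  obtain ⟨q, hq⟩ := exists_rename_eq_of_vars_subset_range F Sum.inl Sum.inl_injective h1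
  exact ⟨q, hq.symm⟩

variable [Fintype τ]

theorem pd_iL (i : τ) (P : Lm σ τ) : pderiv (Sum.inr i) (iL P) = iB σ τ (P.2 i) := by
  classical
  unfold iL
  rw [map_add, pd_iB, zero_add, map_sum]
  rw [Finset.sum_eq_single i]
  · rw [pderiv_mul, pd_iB, pderiv_X_self]; simp
  · intro j _ hj
    rw [pderiv_mul, pd_iB, pderiv_X_of_ne]
    · simp
    · intro h
      exact hj (Sum.inr_injective h)
  · intro h
    exact absurd (Finset.mem_univ i) h

/-- A polynomial whose second `τ`-derivatives vanish is in `S(V) + S(V)·h`. -/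
theorem range_iL (F : MvPolynomial (σ ⊕ τ) ℂ)
    (h : ∀ i j : τ, pderiv (Sum.inr i) (pderiv (Sum.inr j) F) = 0) : ∃ P : Lm σ τ, F = iL P := by
  classical
  have h1 : ∀ j : τ, ∃ c, pderiv (Sum.inr j) F = iB σ τ c := fun j => range_iB _ (fun i => h i j)
  choose c hc using h1
  obtain ⟨c0, hc0⟩ := range_iB (F - iL ((0, c) : Lm σ τ)) (by
    intro i
    rw [map_sub, pd_iL, hc, sub_self])
  refine ⟨(c0, c), ?_⟩
  have : iL ((c0, c) : Lm σ τ) = iB σ τ c0 + iL ((0, c) : Lm σ τ) := by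
    unfold iL
    simp
  rw [this, ← hc0]
  ring

theorem iL_hom {e : ℕ} (he : 1 ≤ e) {P : Lm σ τ} (h : (iL P).IsHomogeneous e) : HomL e P := by
  classical
  have h2 : ∀ i, (P.2 i).IsHomogeneous (e - 1) := by
    intro i
    have := h.pderiv (i := (Sum.inr i : σ ⊕ τ))
    rw [pd_iL] at this
    exact (IsHomogeneous.rename_isHomogeneous_iff Sum.inl_injective).1 this
  refine ⟨?_, h2⟩
  have h3 : (iB σ τ P.1).IsHomogeneous e := by
    have : iB σ τ P.1 = iL P - ∑ i, iB σ τ (P.2 i) * X (Sum.inr i) := by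
      unfold iL; ring
    rw [this]
    apply h.sub
    apply IsHomogeneous.sum
    intro i _
    have h4 : (iB σ τ (P.2 i)).IsHomogeneous (e - 1) := (h2 i).rename_isHomogeneous
    have := h4.mul (isHomogeneous_X ℂ (Sum.inr i : σ ⊕ τ))
    rwa [Nat.sub_add_cancel he] at this
  exact (IsHomogeneous.rename_isHomogeneous_iff Sum.inl_injective).1 h3

/-- The linear combination of two elements. -/
theorem iL_comb (c d : MvPolynomial σ ℂ) (P Q : Lm σ τ) :
    iL ((c * P.1 - d * Q.1, fun i => c * P.2 i - d * Q.2 i) : Lm σ τ) =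
      iB σ τ c * iL P - iB σ τ d * iL Q := by
  unfold iL
  simp only [map_sub, map_mul, mul_add, Finset.mul_sum]
  rw [show ∀ a b c d : MvPolynomial (σ ⊕ τ) ℂ, a + b - (c + d) = (a - c) + (b - d) by
    intros; ring, ← Finset.sum_sub_distrib]
  congr 1
  apply Finset.sum_congr rfl
  intro i _
  ring

theorem pd_zero {κ : Type} (i : κ) (F : MvPolynomial κ ℂ) (hF : F.IsHomogeneous 0) :
    pderiv i F = 0 := by
  classical
  ext m
  rw [coeff_pderiv, hF.coeff_eq_zero, zero_mul, coeff_zero]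
  rw [map_add, Finsupp.degree_single]
  omega

/-- The normal form without maximality. -/
def NFw (A : Subalgebra ℂ (MvPolynomial (σ ⊕ τ) ℂ)) (J : Finset τ) : Prop :=
  ∃ (D : ℕ) (Δ : MvPolynomial σ ℂ) (P : τ → Lm σ τ), 1 ≤ D ∧ Δ ≠ 0 ∧ Δ.IsHomogeneous (D - 1) ∧
    iB σ τ Δ ∈ A ∧ (∀ a ∈ J, iL (P a) ∈ A) ∧ (∀ a ∈ J, HomL D (P a)) ∧ (∀ a ∈ J, (P a).2 a = Δ) ∧
    ∀ a ∈ J, ∀ b ∈ J, a ≠ b → (P a).2 b = 0

theorem exists_G (A : Subalgebra ℂ (MvPolynomial (σ ⊕ τ) ℂ)) (hA : GSt A) (J : Finset τ) (k : ℕ) :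
    ∀ F ∈ A, F.IsHomogeneous k → (∀ j ∈ J, pderiv (Sum.inr j) F = 0) →
      (∃ i : τ, pderiv (Sum.inr i) F ≠ 0) →
      ∃ (e : ℕ) (P : Lm σ τ), 1 ≤ e ∧ iL P ∈ A ∧ (iL P).IsHomogeneous e ∧
        (∀ j ∈ J, P.2 j = 0) ∧ ∃ i, P.2 i ≠ 0 := by
  induction k with
  | zero =>
    intro F _ hF _ ⟨i, hi⟩
    exact absurd (pd_zero (Sum.inr i) F hF) hi
  | succ k ih =>
    intro F hFA hF hJ ⟨i, hi⟩
    by_cases h : ∀ a b : τ, pderiv (Sum.inr a) (pderiv (Sum.inr b) F) = 0
    · obtain ⟨P, rfl⟩ := range_iL F h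
      refine ⟨k + 1, P, by omega, hFA, hF, ?_, i, ?_⟩
      · intro j hj
        have := hJ j hj
        rw [pd_iL] at this
        exact iB_inj (this.trans (map_zero _).symm)
      · intro h0
        apply hi
        rw [pd_iL, h0, map_zero]
    · push Not at h
      obtain ⟨a, b, hab⟩ := h
      refine ih (pderiv (Sum.inr b) F) (hA.stable F hFA b) hF.pderiv ?_ ⟨a, hab⟩
      intro j hj
      rw [pd_comm, hJ j hj, map_zero]

theorem nfw_step (A : Subalgebra ℂ (MvPolynomial (σ ⊕ τ) ℂ)) (hA : GSt A) (J : Finset τ)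
    (h : NFw A J) (e : ℕ) (P : Lm σ τ) (he : 1 ≤ e) (hPA : iL P ∈ A)
    (hP : (iL P).IsHomogeneous e) (hJ : ∀ j ∈ J, P.2 j = 0) (hi : ∃ i, P.2 i ≠ 0) :
    ∃ J' : Finset τ, J.card < J'.card ∧ NFw A J' := by
  classical
  obtain ⟨i, hi⟩ := hi
  have hiJ : i ∉ J := fun h => hi (hJ i h)
  obtain ⟨D, Δ, R, hD, hΔ, hΔh, hΔA, hRA, hRh, hRd, hRo⟩ := h
  have hPh := iL_hom he hP
  have hsub : ∀ (Q : Lm σ τ) (j : τ), iL Q ∈ A → iB σ τ (Q.2 j) ∈ A := by
    intro Q j hQ
    have := hA.stable _ hQ j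
    rwa [pd_iL] at this
  refine ⟨insert i J, by rw [Finset.card_insert_of_notMem hiJ]; omega, D + e - 1, Δ * P.2 i,
    fun a => if a = i then (Δ * P.1 - 0 * P.1, fun k => Δ * P.2 k - 0 * P.2 k)
      else (P.2 i * (R a).1 - (R a).2 i * P.1, fun k => P.2 i * (R a).2 k - (R a).2 i * P.2 k),
    by omega, mul_ne_zero hΔ hi, ?_, ?_, ?_, ?_, ?_, ?_⟩
  · have := hΔh.mul (hPh.2 i)
    rwa [show D - 1 + (e - 1) = D + e - 1 - 1 by omega] at this
  · rw [map_mul]
    exact A.mul_mem hΔA (hsub P i hPA)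
  · intro a ha
    dsimp only
    split_ifs with h
    · rw [iL_comb, map_zero, zero_mul, sub_zero]
      exact A.mul_mem hΔA hPA
    · have ha' : a ∈ J := (Finset.mem_insert.1 ha).resolve_left h
      rw [iL_comb]
      exact A.sub_mem (A.mul_mem (hsub P i hPA) (hRA a ha')) (A.mul_mem (hsub _ i (hRA a ha')) hPA)
  · intro a ha
    dsimp only
    split_ifs with h
    · constructor
      · have := hΔh.mul hPh.1
        simpa [show D - 1 + e = D + e - 1 by omega] using this
      · intro k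
        have := hΔh.mul (hPh.2 k)
        simpa [show D - 1 + (e - 1) = D + e - 1 - 1 by omega] using this
    · have ha' : a ∈ J := (Finset.mem_insert.1 ha).resolve_left h
      have hR := hRh a ha'
      constructor
      · have h1 := (hPh.2 i).mul hR.1
        have h2 := (hR.2 i).mul hPh.1
        rw [show e - 1 + D = D + e - 1 by omega] at h1
        rw [show D - 1 + e = D + e - 1 by omega] at h2
        exact h1.sub h2
      · intro k
        have h1 := (hPh.2 i).mul (hR.2 k)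
        have h2 := (hR.2 i).mul (hPh.2 k)
        rw [show e - 1 + (D - 1) = D + e - 1 - 1 by omega] at h1
        rw [show D - 1 + (e - 1) = D + e - 1 - 1 by omega] at h2
        exact h1.sub h2
  · intro a ha
    dsimp only
    split_ifs with h
    · subst h; simp
    · have ha' : a ∈ J := (Finset.mem_insert.1 ha).resolve_left h
      dsimp only
      rw [hRd a ha', hJ a ha']
      ring
  · intro a ha b hb hab
    dsimp only
    split_ifs with h
    · have hb' : b ∈ J := (Finset.mem_insert.1 hb).resolve_left (by rintro rfl; exact hab h)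
      dsimp only
      rw [hJ b hb']
      ring
    · have ha' : a ∈ J := (Finset.mem_insert.1 ha).resolve_left h
      dsimp only
      by_cases hbi : b = i
      · subst hbi; ring
      · have hb' : b ∈ J := (Finset.mem_insert.1 hb).resolve_left hbi
        rw [hRo a ha' b hb' hab, hJ b hb']
        ring

theorem t_nfj : NFJStmt := by
  classical
  intro σ τ _ _ A hA
  -- a set of maximal cardinality
  have h0 : NFw A ∅ := by
    refine ⟨1, 1, fun _ => (0, fun _ => 0), le_refl _, one_ne_zero, isHomogeneous_one _ _, ?_, ?_, ?_, ?_, ?_⟩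
    · rw [map_one]; exact A.one_mem
    all_goals simp
  obtain ⟨J, hJ, hmax⟩ := Finset.exists_max_image
    ((Finset.univ : Finset (Finset τ)).filter (fun J => NFw A J)) Finset.card ⟨∅, by simp [h0]⟩
  rw [Finset.mem_filter] at hJ
  obtain ⟨D, Δ, P, hD, hΔ, hΔh, hΔA, hPA, hPh, hPd, hPo⟩ := hJ.2
  refine ⟨J, D, Δ, fun a => P a, ?_⟩
  refine ⟨hD, hΔ, hΔh, hΔA, fun a => hPA a a.2, fun a => hPh a a.2, fun a => hPd a a.2,
    fun a b hab => hPo a a.2 b b.2 (fun h => hab (Subtype.ext h)), ?_⟩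
  intro F hF hFJ
  by_contra hno
  -- some homogeneous component
  have h1 : ∃ (n : ℕ) (i : τ), pderiv (Sum.inr i) (homogeneousComponent n F) ≠ 0 := by
    by_contra h2
    push Not at h2
    apply hno
    apply range_iB
    intro i
    rw [← sum_homogeneousComponent F, map_sum]
    apply Finset.sum_eq_zero
    intro n _
    exact h2 n i
  obtain ⟨n, i, hi⟩ := h1
  have h3 : ∀ j ∈ J, pderiv (Sum.inr j) (homogeneousComponent n F) = 0 := by
    intro j hj
    ext m
    rw [coeff_pderiv, coeff_homogeneousComponent, coeff_zero]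
    split_ifs with h
    · have h4 := coeff_pderiv (i := (Sum.inr j : σ ⊕ τ)) F m
      rw [hFJ ⟨j, hj⟩, coeff_zero] at h4
      exact h4.symm
    · ring
  obtain ⟨e, Q, he, hQA, hQ, hQJ, hQi⟩ := exists_G A hA J n (homogeneousComponent n F)
    (hA.graded F hF n) (homogeneousComponent_isHomogeneous n F) h3 ⟨i, hi⟩
  obtain ⟨J', hc, hJ'⟩ := nfw_step A hA J hJ.2 e Q he hQA hQ hQJ hQi
  have := hmax J' (by simp [hJ'])
  omega

end Pool.MFM
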