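import Pool.Agent.H2.MFM.NFJ

/-!
# MFM: `A` is contained in the algebra generated by the family, after inverting `Δ` (SPN)
-/

set_option autoImplicit false

open MvPolynomial

namespace Pool.MFM

open Pool.MFQ

variable {σ τ : Type} [Fintype τ]

theorem hom_iL {D : ℕ} (hD : 1 ≤ D) {P : Lm σ τ} (h : HomL D P) : (iL P).IsHomogeneous D := by
  unfold iL
  refine IsHomogeneous.add (h.1.rename_isHomogeneous) ?_
  apply IsHomogeneous.sum
  intro i _
  have h4 : (iB σ τ (P.2 i)).IsHomogeneous (D - 1) := (h.2 i).rename_isHomogeneous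
  have := h4.mul (isHomogeneous_X ℂ (Sum.inr i : σ ⊕ τ))
  rwa [Nat.sub_add_cancel hD] at this

/-- The evaluation at the family `P`. -/
noncomputable def evJ {J : Finset τ} (P : J → Lm σ τ) :
    MvPolynomial J (MvPolynomial σ ℂ) →+* MvPolynomial (σ ⊕ τ) ℂ :=
  eval₂Hom (iB σ τ).toRingHom (fun a => iL (P a))

theorem evJ_C {J : Finset τ} (P : J → Lm σ τ) (c : MvPolynomial σ ℂ) :
    evJ P (C c) = iB σ τ c := by simp [evJ]

theorem evJ_X {J : Finset τ} (P : J → Lm σ τ) (a : J) : evJ P (X a) = iL (P a) := by simp [evJ]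

theorem pd_evJ {J : Finset τ} (P : J → Lm σ τ) (Δ : MvPolynomial σ ℂ)
    (hd : ∀ a, (P a).2 a = Δ) (ho : ∀ a b : J, a ≠ b → (P a).2 b = 0)
    (j : J) (Q : MvPolynomial J (MvPolynomial σ ℂ)) :
    pderiv (Sum.inr (j : τ)) (evJ P Q) = iB σ τ Δ * evJ P (pderiv j Q) := by
  classical
  induction Q using MvPolynomial.induction_on with
  | C c => rw [evJ_C, pd_iB, pderiv_C, map_zero, mul_zero]
  | add p q hp hq => rw [map_add, map_add, hp, hq, map_add, map_add, mul_add]
  | mul_X p a h =>
    rw [map_mul, pderiv_mul, h, evJ_X, pd_iL, pderiv_mul, map_add, map_mul, map_mul, evJ_X]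
    by_cases haj : a = j
    · subst haj
      rw [hd, pderiv_X_self, map_one]
      ring
    · rw [ho a j haj, map_zero, pderiv_X_of_ne haj, map_zero]
      ring

theorem evJ_inj (hIND : INDStmt) {J : Finset τ} (P : J → Lm σ τ) (Δ : MvPolynomial σ ℂ)
    (hΔ : Δ ≠ 0) (hd : ∀ a, (P a).2 a = Δ) (ho : ∀ a b : J, a ≠ b → (P a).2 b = 0) :
    Function.Injective (evJ P) := by
  classical
  have hli : LinearIndependent (MvPolynomial σ ℂ) (fun a : J => (P a).2) := by
    rw [Fintype.linearIndependent_iff]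
    intro c hc j
    have h1 := congrFun hc (j : τ)
    rw [Finset.sum_apply, Finset.sum_eq_single j] at h1
    · simp only [Pi.smul_apply, hd, smul_eq_mul, Pi.zero_apply, mul_eq_zero] at h1
      exact h1.resolve_right hΔ
    · intro b _ hb
      rw [Pi.smul_apply, ho b j hb, smul_zero]
    · intro h
      exact absurd (Finset.mem_univ j) h
  have h1 := hIND (MvPolynomial σ ℂ) τ J (fun a => (P a).1) (fun a => (P a).2) hli
  -- through `Psi`
  have hPB : ∀ c : MvPolynomial σ ℂ, Psi σ τ (iB σ τ c) = C c := by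
    intro c
    induction c using MvPolynomial.induction_on with
    | C a =>
      have h2 : iB σ τ (C a) = C a := by
        unfold iB
        exact rename_C _ _
      rw [h2]
      unfold Psi
      rw [aeval_C]
      rfl
    | add p q hp hq => rw [map_add, map_add, hp, hq, map_add]
    | mul_X p l h =>
      have h2 : iB σ τ (X l) = X (Sum.inl l) := by
        unfold iB
        exact rename_X _ _
      have h3 : Psi σ τ (X (Sum.inl l)) = C (X l) := by
        unfold Psi
        rw [aeval_X]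
        rfl
      rw [map_mul, map_mul, h, h2, h3, map_mul]
  have hPL : ∀ a : J, Psi σ τ (iL (P a)) = toP (P a) := by
    intro a
    unfold iL toP
    rw [map_add, hPB, map_sum]
    congr 1
    apply Finset.sum_congr rfl
    intro i _
    have h3 : Psi σ τ (X (Sum.inr i)) = X i := by
      unfold Psi
      rw [aeval_X]
      rfl
    rw [map_mul, hPB, h3]
  have hP : ∀ Q, Psi σ τ (evJ P Q) = aeval (fun a : J => toP (P a)) Q := by
    intro Q
    induction Q using MvPolynomial.induction_on with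
    | C c => rw [evJ_C, hPB, aeval_C]; rfl
    | add p q hp hq => rw [map_add, map_add, hp, hq, map_add]
    | mul_X p a h => rw [map_mul, map_mul, h, map_mul, aeval_X, evJ_X, hPL]
  intro Q Q' h
  have h2 : aeval (fun a : J => toP (P a)) Q = aeval (fun a : J => toP (P a)) Q' := by
    rw [← hP, ← hP, h]
  exact h1 h2

/-- The degree condition. -/
def DG (A : Subalgebra ℂ (MvPolynomial (σ ⊕ τ) ℂ)) {J : Finset τ} (D K : ℕ)
    (Q : MvPolynomial J (MvPolynomial σ ℂ)) : Prop :=
  ∀ α, coeff α Q ≠ 0 → iB σ τ (coeff α Q) ∈ A ∧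
    ∃ m, m + α.degree * D = K ∧ (coeff α Q).IsHomogeneous m

theorem evJ_mem {A : Subalgebra ℂ (MvPolynomial (σ ⊕ τ) ℂ)} {J : Finset τ} {D K : ℕ}
    (hD : 1 ≤ D) (P : J → Lm σ τ) (hP : ∀ a, iL (P a) ∈ A) (hPh : ∀ a, HomL D (P a))
    (Q : MvPolynomial J (MvPolynomial σ ℂ)) (hQ : DG A D K Q) :
    evJ P Q ∈ A ∧ (evJ P Q).IsHomogeneous K := by
  classical
  have hsum : evJ P Q = ∑ α ∈ Q.support, iB σ τ (coeff α Q) * ∏ a ∈ α.support, iL (P a) ^ α a := by
    unfold evJ
    rw [coe_eval₂Hom, eval₂_eq]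
    rfl
  rw [hsum]
  constructor
  · apply A.sum_mem
    intro α hα
    apply A.mul_mem (hQ α (mem_support_iff.1 hα)).1
    apply A.prod_mem
    intro a _
    exact A.pow_mem (hP a) _
  · apply IsHomogeneous.sum
    intro α hα
    obtain ⟨_, m, hm, hmh⟩ := hQ α (mem_support_iff.1 hα)
    have h1 : (iB σ τ (coeff α Q)).IsHomogeneous m := hmh.rename_isHomogeneous
    have h2 : (∏ a ∈ α.support, iL (P a) ^ α a).IsHomogeneous (∑ a ∈ α.support, D * α a) := by
      apply IsHomogeneous.prod
      intro a _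
      exact (hom_iL hD (hPh a)).pow _
    have h3 := h1.mul h2
    rw [← Finset.mul_sum] at h3
    have h4 : ∑ a ∈ α.support, α a = α.degree := rfl
    rw [h4, mul_comm D, hm] at h3
    exact h3

theorem t_spn (hIND : INDStmt) (hPOL : POLStmt) : SPNStmt := by
  classical
  intro σ τ _ _ A hA J D Δ P hN k
  have hD := hN.pos
  have hΔ := hN.ne
  have hinj := evJ_inj hIND P Δ hΔ hN.diag hN.off
  -- the case of vanishing derivatives
  have hbase : ∀ (K : ℕ) (F : MvPolynomial (σ ⊕ τ) ℂ), F ∈ A → F.IsHomogeneous K →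
      (∀ j : J, pderiv (Sum.inr (j : τ)) F = 0) →
      ∃ c : MvPolynomial σ ℂ, F = iB σ τ c ∧ iB σ τ c ∈ A ∧ c.IsHomogeneous K := by
    intro K F hF hFh h
    obtain ⟨c, rfl⟩ := hN.max F hF h
    exact ⟨c, rfl, hF, (IsHomogeneous.rename_isHomogeneous_iff Sum.inl_injective).1 hFh⟩
  have main : ∀ k : ℕ, ∀ F : MvPolynomial (σ ⊕ τ) ℂ, F ∈ A → F.IsHomogeneous k →
      ∃ (N : ℕ) (Q : MvPolynomial J (MvPolynomial σ ℂ)),
        iB σ τ Δ ^ N * F = evJ P Q ∧ DG A D (k + N * (D - 1)) Q := by
    intro k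
    induction k with
    | zero =>
      intro F hF hFh
      obtain ⟨c, hc, hcA, hch⟩ := hbase 0 F hF hFh (fun j => pd_zero _ F hFh)
      refine ⟨0, C c, ?_, ?_⟩
      · rw [evJ_C, ← hc, pow_zero, one_mul]
      · intro α hα
        rw [coeff_C] at hα ⊢
        split_ifs at hα ⊢ with h
        · subst h
          exact ⟨hcA, 0, by simp, hch⟩
        · exact absurd rfl hα
    | succ k ih =>
      intro F hF hFh
      have h1 : ∀ j : J, ∃ (N : ℕ) (Q : MvPolynomial J (MvPolynomial σ ℂ)),
          iB σ τ Δ ^ N * pderiv (Sum.inr (j : τ)) F = evJ P Q ∧ DG A D (k + N * (D - 1)) Q := by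
        intro j
        exact ih _ (hA.stable F hF j) (by simpa using hFh.pderiv (i := (Sum.inr (j : τ) : σ ⊕ τ)))
      choose Nf Qf hQf hDf using h1
      -- a common exponent
      obtain ⟨N, hNle⟩ : ∃ N, ∀ j, Nf j ≤ N :=
        ⟨∑ j, Nf j, fun j => Finset.single_le_sum (f := Nf) (fun _ _ => Nat.zero_le _) (Finset.mem_univ j)⟩
      set q : J → MvPolynomial J (MvPolynomial σ ℂ) := fun j => C (Δ ^ (N - Nf j)) * Qf j with hq
      have hq1 : ∀ j : J, iB σ τ Δ ^ N * pderiv (Sum.inr (j : τ)) F = evJ P (q j) := by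
        intro j
        rw [hq]
        dsimp only
        rw [map_mul, evJ_C, ← hQf, map_pow, ← mul_assoc, ← pow_add, Nat.sub_add_cancel (hNle j)]
      have hq2 : ∀ j : J, DG A D (k + N * (D - 1)) (q j) := by
        intro j α hα
        rw [hq] at hα ⊢
        dsimp only at hα ⊢
        rw [coeff_C_mul] at hα ⊢
        obtain ⟨h1, m, hm, hmh⟩ := hDf j α (right_ne_zero_of_mul hα)
        refine ⟨?_, (D - 1) * (N - Nf j) + m, ?_, ?_⟩
        · rw [map_mul, map_pow]
          exact A.mul_mem (A.pow_mem hN.memΔ _) h1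
        · rw [add_assoc, hm]
          have : N * (D - 1) = Nf j * (D - 1) + (N - Nf j) * (D - 1) := by
            rw [← add_mul, Nat.add_sub_cancel' (hNle j)]
          rw [this]; ring
        · exact (hN.homΔ.pow _).mul hmh
      -- closedness
      have hcl : ∀ i j : J, pderiv i (q j) = pderiv j (q i) := by
        intro i j
        apply hinj
        have h2 : ∀ i j : J, iB σ τ Δ * evJ P (pderiv i (q j)) =
            iB σ τ Δ ^ N * pderiv (Sum.inr (i : τ)) (pderiv (Sum.inr (j : τ)) F) := by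
          intro i j
          rw [← pd_evJ P Δ hN.diag hN.off, ← hq1, pderiv_mul, pderiv_pow, pd_iB]
          ring
        have h3 := h2 i j
        have h4 := h2 j i
        rw [pd_comm, ← h4] at h3
        exact mul_left_cancel₀ (fun h => hΔ (iB_inj (h.trans (map_zero _).symm))) h3
      obtain ⟨Q', hQ'⟩ := hPOL (MvPolynomial σ ℂ) J q hcl
      set Q₁ : MvPolynomial J (MvPolynomial σ ℂ) := Q' - C (coeff 0 Q') with hQ₁
      have hQ1d : ∀ j, pderiv j Q₁ = q j := by
        intro j
        rw [hQ₁, map_sub, pderiv_C, sub_zero, hQ']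
      have hQ10 : coeff 0 Q₁ = 0 := by
        rw [hQ₁, coeff_sub, coeff_C, if_pos rfl, sub_self]
      have hDG1 : DG A D (k + 1 + (N + 1) * (D - 1)) Q₁ := by
        intro α hα
        have hα0 : α ≠ 0 := by
          rintro rfl
          exact hα hQ10
        obtain ⟨i, hi⟩ := Finsupp.support_nonempty_iff.2 hα0
        have hi' : α i ≠ 0 := Finsupp.mem_support_iff.1 hi
        set β := α - Finsupp.single i 1 with hβ
        have hβα : β + Finsupp.single i 1 = α := by
          apply tsub_add_cancel_of_le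
          rw [Finsupp.single_le_iff]
          omega
        have h2 := coeff_pderiv (i := i) Q₁ β
        rw [hQ1d, hβα] at h2
        have hne : ((β i : MvPolynomial σ ℂ) + 1) ≠ 0 := by
          have : ((β i : MvPolynomial σ ℂ) + 1) = ((β i + 1 : ℕ) : MvPolynomial σ ℂ) := by push_cast; rfl
          rw [this]
          exact Nat.cast_ne_zero.2 (Nat.succ_ne_zero _)
        have h3 : coeff β (q i) ≠ 0 := by
          rw [h2]
          exact mul_ne_zero hα hne
        obtain ⟨h4, m, hm, hmh⟩ := hq2 i β h3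
        have h5 : coeff α Q₁ = ((β i + 1 : ℕ) : ℂ)⁻¹ • coeff β (q i) := by
          rw [h2, eq_inv_smul_iff₀ (Nat.cast_ne_zero.2 (Nat.succ_ne_zero _)), smul_eq_C_mul, mul_comm]
          congr 1
          simp
        refine ⟨?_, m, ?_, ?_⟩
        · rw [h5, map_smul]
          exact A.smul_mem h4 _
        · have h6 : α.degree = β.degree + 1 := by
            rw [← hβα, map_add, Finsupp.degree_single]
          rw [h6, add_mul, ← add_assoc, hm]
          obtain ⟨D', rfl⟩ : ∃ D', D = D' + 1 := ⟨D - 1, by omega⟩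
          simp only [Nat.add_sub_cancel]
          ring
        · rw [h5, smul_eq_C_mul]
          have := (isHomogeneous_C σ (((β i + 1 : ℕ) : ℂ)⁻¹)).mul hmh
          rwa [zero_add] at this
      obtain ⟨h6, h7⟩ := evJ_mem hD P hN.mem hN.hom Q₁ hDG1
      -- the remainder
      have hF2 : (iB σ τ Δ ^ (N + 1) * F).IsHomogeneous (k + 1 + (N + 1) * (D - 1)) := by
        have h8 : (iB σ τ Δ).IsHomogeneous (D - 1) := hN.homΔ.rename_isHomogeneous
        have := (h8.pow (N + 1)).mul hFh
        rwa [show (D - 1) * (N + 1) + (k + 1) = k + 1 + (N + 1) * (D - 1) by ring] at this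
      obtain ⟨c, hc, hcA, hch⟩ := hbase (k + 1 + (N + 1) * (D - 1))
        (iB σ τ Δ ^ (N + 1) * F - evJ P Q₁)
        (A.sub_mem (A.mul_mem (A.pow_mem hN.memΔ _) hF) h6) (hF2.sub h7) (by
          intro j
          rw [map_sub, pd_evJ P Δ hN.diag hN.off, hQ1d, ← hq1, pderiv_mul, pderiv_pow, pd_iB]
          ring)
      refine ⟨N + 1, Q₁ + C c, ?_, ?_⟩
      · rw [map_add, evJ_C, ← hc]
        ring
      · intro α hα
        by_cases h : α = 0
        · subst h
          rw [coeff_add, hQ10, coeff_C, if_pos rfl, zero_add] at hα ⊢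
          exact ⟨hcA, _, by simp, hch⟩
        · rw [coeff_add, coeff_C, if_neg (Ne.symm h), add_zero] at hα ⊢
          exact hDG1 α hα
  intro F hF hFh
  obtain ⟨N, Q, h1, h2⟩ := main k F hF hFh
  exact ⟨N, Q, h1, h2⟩

end Pool.MFM
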